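import Mathlib
import Pool.Agent.Lib.MP_bf61d2_nt.Trim.Euler

set_option autoImplicit false

/-!
Absolute convergence and the Euler product of the L-series of a formal Euler product with complex
coefficients, dominated by a formal Euler product with integer coefficients.
-/

namespace LSeries
end LSeries

namespace Pool.Agent.Lib.MP_bf61d2_nt.MV59Y

open ArithmeticFunction Filter Topology LSeries

variable {ι : Type*} {f : ι → ArithmeticFunction ℤ} {F : ι → ArithmeticFunction ℂ}

lemma norm_prod_le (hF : ∀ i n, ‖F i n‖ ≤ |((f i n : ℤ) : ℝ)|) (S : Finset ι) (n : ℕ) :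
    ‖(∏ i ∈ S, F i) n‖ ≤ (((∏ i ∈ S, absA (f i)) n : ℤ) : ℝ) := by
  classical
  induction S using Finset.induction_on generalizing n with
  | empty =>
    rw [Finset.prod_empty, Finset.prod_empty, one_apply, one_apply]
    split_ifs <;> simp
  | insert i S hi ih =>
    rw [Finset.prod_insert hi, Finset.prod_insert hi, mul_apply, mul_apply]
    push_cast
    refine (norm_sum_le _ _).trans (Finset.sum_le_sum fun x _ => ?_)
    rw [norm_mul]
    refine mul_le_mul ?_ (ih _) (norm_nonneg _) (by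
      rw [absA_apply]
      exact_mod_cast abs_nonneg (f i x.1))
    have h1 := hF i x.1
    rw [absA_apply]
    push_cast
    exact h1

/-- The L-series of a finite product. -/
lemma hasSum_prodC {s : ℂ} {β : ι → ℂ} (h : ∀ i, LSeriesHasSum (fun n => F i n) s (β i))
    (S : Finset ι) : LSeriesHasSum (fun n => (∏ i ∈ S, F i) n) s (∏ i ∈ S, β i) := by
  classical
  induction S using Finset.induction_on with
  | empty =>
    rw [Finset.prod_empty, Finset.prod_empty]
    have e : term (fun n => (1 : ArithmeticFunction ℂ) n) s = fun n => if n = 1 then 1 else 0 := by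
      ext n
      rw [term_def]
      by_cases hn : n = 1
      · subst hn; simp
      · simp [one_apply_ne hn, hn]
    rw [LSeriesHasSum, e]
    exact hasSum_ite_eq 1 1
  | insert i S hi ih =>
    rw [Finset.prod_insert hi, Finset.prod_insert hi]
    exact LSeriesHasSum_mul (by simpa using h i) (by simpa using ih)

/-- The integer majorant of the partial products. -/
lemma majorant (hcof : ∀ n, ∀ᶠ i in cofinite, f i n = (1 : ArithmeticFunction ℤ) n)
    (h1 : ∀ i, f i 1 = 1) (S : Finset ι) (n : ℕ) :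
    (∏ i ∈ S, absA (f i)) n ≤ eulerProduct (fun i => absA (f i)) n := by
  classical
  have hcof' : ∀ n, ∀ᶠ i in cofinite, absA (f i) n = (1 : ArithmeticFunction ℤ) n := by
    intro n
    filter_upwards [hcof n] with i hi
    rw [absA_apply, hi, one_apply]
    split_ifs <;> simp
  have hconv' := tendsTo_eulerProduct_of_tendsTo (fun i => absA (f i)) hcof'
  obtain ⟨T, hT⟩ := (hconv' n).exists_forall_of_atTop
  have h2 := hT (S ∪ T) Finset.subset_union_right
  rw [← h2]
  exact prodAbs_mono h1 Finset.subset_union_left n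

/-- The coefficients of the formal Euler product are dominated. -/
lemma norm_euler_le (hcof : ∀ n, ∀ᶠ i in cofinite, f i n = (1 : ArithmeticFunction ℤ) n)
    (h1 : ∀ i, f i 1 = 1)
    (hcofF : ∀ n, ∀ᶠ i in cofinite, F i n = (1 : ArithmeticFunction ℂ) n)
    (hF : ∀ i n, ‖F i n‖ ≤ |((f i n : ℤ) : ℝ)|) (n : ℕ) :
    ‖eulerProduct F n‖ ≤ ((eulerProduct (fun i => absA (f i)) n : ℤ) : ℝ) := by
  obtain ⟨S, hS⟩ := (tendsTo_eulerProduct_of_tendsTo F hcofF n).exists
  rw [← hS]
  refine (norm_prod_le hF S n).trans ?_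
  exact_mod_cast majorant hcof h1 S n

/-- The weighted sum of the majorant. -/
lemma sum_majorant_le (hcof : ∀ n, ∀ᶠ i in cofinite, f i n = (1 : ArithmeticFunction ℤ) n) {σ : ℝ}
    {x : ι → ℝ} (hx : Summable x) (hx0 : ∀ i, 0 ≤ x i)
    (hsum : ∀ i, LSeriesSummable (fun n => ((f i n : ℤ) : ℂ)) σ)
    (hle : ∀ i, ∑' n, ‖term (fun n => ((f i n : ℤ) : ℂ)) (σ : ℂ) n‖ ≤ 1 + x i) (T : Finset ℕ) :
    ∑ n ∈ T, ‖term (fun n => ((eulerProduct (fun i => absA (f i)) n : ℤ) : ℂ)) (σ : ℂ) n‖ ≤
      Real.exp (∑' i, x i) := by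
  classical
  set β : ι → ℝ := fun i => ∑' n, ‖term (fun n => ((f i n : ℤ) : ℂ)) (σ : ℂ) n‖ with hβ
  have hβ0 : ∀ i, 0 ≤ β i := fun i => tsum_nonneg fun _ => norm_nonneg _
  set B : ℝ := Real.exp (∑' i, x i) with hB
  have habs : ∀ i, LSeriesHasSum (fun n => ((absA (f i) n : ℤ) : ℂ)) (σ : ℂ) (β i : ℂ) := by
    intro i
    have e : term (fun n => ((absA (f i) n : ℤ) : ℂ)) (σ : ℂ) =
        fun n => ((‖term (fun n => ((f i n : ℤ) : ℂ)) (σ : ℂ) n‖ : ℝ) : ℂ) := by
      ext n; exact term_abs (f i) σ n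
    rw [LSeriesHasSum, e]
    exact Complex.hasSum_ofReal.mpr (hsum i).norm.hasSum
  have hbound : ∀ (S : Finset ι) (T : Finset ℕ),
      ∑ n ∈ T, ‖term (fun n => (((∏ i ∈ S, absA (f i)) n : ℤ) : ℂ)) (σ : ℂ) n‖ ≤ B := by
    intro S T
    have h := hasSum_prod habs S
    have e : term (fun n => (((∏ i ∈ S, absA (f i)) n : ℤ) : ℂ)) (σ : ℂ) =
        fun n => ((‖term (fun n => (((∏ i ∈ S, absA (f i)) n : ℤ) : ℂ)) (σ : ℂ) n‖ : ℝ) : ℂ) := by
      ext n
      rw [← term_abs]
      congr 1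
      ext n
      rw [abs_of_nonneg (prodAbs_nonneg S n)]
    rw [LSeriesHasSum, e, ← Complex.ofReal_prod, Complex.hasSum_ofReal] at h
    refine (sum_le_hasSum T (fun _ _ => norm_nonneg _) h).trans ?_
    calc ∏ i ∈ S, β i ≤ ∏ i ∈ S, Real.exp (x i) := by
          refine Finset.prod_le_prod (fun i _ => hβ0 i) fun i _ => (hle i).trans ?_
          rw [add_comm]; exact Real.add_one_le_exp _
      _ = Real.exp (∑ i ∈ S, x i) := (Real.exp_sum _ _).symm
      _ ≤ B := Real.exp_le_exp.mpr (hx.sum_le_tsum S fun i _ => hx0 i)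
  have hcof' : ∀ n, ∀ᶠ i in cofinite, absA (f i) n = (1 : ArithmeticFunction ℤ) n := by
    intro n
    filter_upwards [hcof n] with i hi
    rw [absA_apply, hi, one_apply]
    split_ifs <;> simp
  have hconv := tendsTo_eulerProduct_of_tendsTo (fun i => absA (f i)) hcof'
  have h2 : ∀ᶠ S : Finset ι in atTop, ∀ n ∈ T,
      (∏ i ∈ S, absA (f i)) n = eulerProduct (fun i => absA (f i)) n :=
    (Filter.eventually_all_finset T).mpr fun n _ => hconv n
  obtain ⟨S, hS⟩ := h2.exists
  refine le_trans (Finset.sum_le_sum fun n hn => ?_) (hbound S T)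
  refine norm_term_le _ ?_
  rw [hS n hn]

/-- Absolute convergence and Euler product for formal Euler products with complex coefficients. -/
theorem eulerC (h1 : ∀ i, f i 1 = 1)
    (hcof : ∀ n, ∀ᶠ i in cofinite, f i n = (1 : ArithmeticFunction ℤ) n)
    (hcofF : ∀ n, ∀ᶠ i in cofinite, F i n = (1 : ArithmeticFunction ℂ) n)
    (hF : ∀ i n, ‖F i n‖ ≤ |((f i n : ℤ) : ℝ)|) {σ : ℝ}
    {x : ι → ℝ} (hx : Summable x) (hx0 : ∀ i, 0 ≤ x i)
    (hsum : ∀ i, LSeriesSummable (fun n => ((f i n : ℤ) : ℂ)) σ)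
    (hle : ∀ i, ∑' n, ‖term (fun n => ((f i n : ℤ) : ℂ)) (σ : ℂ) n‖ ≤ 1 + x i) {s : ℂ}
    (hs : σ ≤ s.re) {β : ι → ℂ} (hβ : ∀ i, LSeriesHasSum (fun n => F i n) s (β i)) :
    LSeriesSummable (fun n => eulerProduct F n) s ∧
      Tendsto (fun S : Finset ι => ∏ i ∈ S, β i) atTop
        (𝓝 (LSeries (fun n => eulerProduct F n) s)) := by
  classical
  set aI : ArithmeticFunction ℤ := eulerProduct (fun i => absA (f i)) with haI
  have hsumI : Summable fun n => ‖term (fun n => ((aI n : ℤ) : ℂ)) (σ : ℂ) n‖ :=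
    summable_of_sum_le (fun _ => norm_nonneg _) (c := Real.exp (∑' i, x i))
      fun T => sum_majorant_le hcof hx hx0 hsum hle T
  have hnn : ∀ n, 0 ≤ aI n := fun n => (prodAbs_nonneg ∅ n).trans (majorant hcof h1 ∅ n)
  have hdom : ∀ (S : Finset ι) (n : ℕ), ‖term (fun n => (∏ i ∈ S, F i) n) s n‖ ≤
      ‖term (fun n => ((aI n : ℤ) : ℂ)) (σ : ℂ) n‖ := by
    intro S n
    refine (norm_term_le_of_re_le_re _ (s := (σ : ℂ)) (s' := s) (by simpa using hs) n).trans ?_
    refine norm_term_le _ ?_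
    rw [Complex.norm_intCast, abs_of_nonneg (by exact_mod_cast hnn n : (0 : ℝ) ≤ ((aI n : ℤ) : ℝ))]
    refine (norm_prod_le hF S n).trans ?_
    exact_mod_cast majorant hcof h1 S n
  have hconv := tendsTo_eulerProduct_of_tendsTo F hcofF
  have hlim : ∀ n, Tendsto (fun S : Finset ι => term (fun n => (∏ i ∈ S, F i) n) s n)
      atTop (𝓝 (term (fun n => eulerProduct F n) s n)) := by
    intro n
    refine tendsto_const_nhds.congr' ?_
    filter_upwards [hconv n] with S hS
    rw [term_def, term_def, hS]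
  constructor
  · refine Summable.of_norm_bounded hsumI fun n => ?_
    exact le_of_tendsto (hlim n).norm (Eventually.of_forall fun S => hdom S n)
  · have h3 := tendsto_tsum_of_dominated_convergence hsumI hlim (Eventually.of_forall hdom)
    refine h3.congr fun S => ?_
    exact (hasSum_prodC hβ S).LSeries_eq

end Pool.Agent.Lib.MP_bf61d2_nt.MV59Y
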