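import Mathlib
import Pool.Agent.Lib.MP_bf61d2_nt.Trim.Analytic
import Pool.Agent.Lib.MP_bf61d2_nt.Trim.Local
import Pool.Agent.Lib.MP_bf61d2_nt.Trim.LocalCurve
import Pool.Agent.Lib.MP_bf61d2_nt.Trim.MV59Y.EulerC
import Pool.Agent.Lib.MP_bf61d2_nt.Trim.Places
import Pool.Agent.Lib.MP_bf61d2_nt.Trim.Residue

set_option autoImplicit false

/-!
The L-function of a Weierstrass curve over a number field twisted by a function on the primes:
definition, absolute convergence, Euler product.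
-/

namespace NumberField
end NumberField

namespace LSeries
end LSeries

namespace Pool.Agent.Lib.MP_bf61d2_nt.MV59
end Pool.Agent.Lib.MP_bf61d2_nt.MV59

namespace Pool.Agent.Lib.MP_bf61d2_nt.MV59Y

open Filter Topology NumberField IsDedekindDomain ArithmeticFunction LSeries MV59

variable {K : Type*} [Field K] [NumberField K]

/-- The L-function of a Weierstrass curve `W` over a number field `K`, twisted by the function `ψ`
on the primes, as a formal Dirichlet series: Mathlib's `WeierstrassCurve.LFunction` with the local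
power series `1 / f_v(T)` replaced by `1 / f_v(ψ(v) T)`. -/
noncomputable def LFun (W : WeierstrassCurve K) (ψ : HeightOneSpectrum (𝓞 K) → ℂ) :
    ArithmeticFunction ℂ :=
  eulerProduct fun v : HeightOneSpectrum (𝓞 K) =>
    ofPowerSeries (Nat.card (IsLocalRing.ResidueField (v.adicCompletionIntegers K)))
      (PowerSeries.rescale (ψ v) (PowerSeries.map (Int.castRingHom ℂ)
        ((W.baseChange (v.adicCompletion K)).localPowerSeries (v.adicCompletionIntegers K))))

variable (W : WeierstrassCurve K) (ψ : HeightOneSpectrum (𝓞 K) → ℂ)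
  (v : HeightOneSpectrum (𝓞 K))

/-- The local factor. -/
noncomputable def facC : ArithmeticFunction ℂ :=
  ofPowerSeries (nm v) (PowerSeries.rescale (ψ v) (PowerSeries.map (Int.castRingHom ℂ)
    (inv (tr W v) (bb W v))))

lemma LFun_eq : LFun W ψ = eulerProduct (facC W ψ) := by
  rw [LFun]
  congr 1
  ext v : 1
  have hcard : Nat.card (IsLocalRing.ResidueField (v.adicCompletionIntegers K)) = nm v :=
    card_residue v
  rw [WeierstrassCurve.localPowerSeries, hcard, facC, inv, ← (lp_eq W v).1]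
  rfl

lemma facC_pow (k : ℕ) : facC W ψ v (nm v ^ k) =
    ψ v ^ k * ((inv (tr W v) (bb W v)).coeff k : ℂ) := by
  rw [facC, ofPowerSeries_apply_pow (one_lt_nm v), PowerSeries.coeff_rescale, PowerSeries.coeff_map]
  rfl

lemma facC_of_ne {n : ℕ} (h : ¬ ∃ k, nm v ^ k = n) : facC W ψ v n = 0 := by
  rw [facC, ofPowerSeries_apply (one_lt_nm v), Function.extend_apply' _ _ _ h]
  rfl

lemma fac_pow (k : ℕ) : fac W v (nm v ^ k) = (inv (tr W v) (bb W v)).coeff k := by
  rw [fac, ofPowerSeries_apply_pow (one_lt_nm v)]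

lemma norm_facC_le {ψ : HeightOneSpectrum (𝓞 K) → ℂ} (hψ : ∀ v, ‖ψ v‖ ≤ 1) (n : ℕ) :
    ‖facC W ψ v n‖ ≤ |((fac W v n : ℤ) : ℝ)| := by
  by_cases h : ∃ k, nm v ^ k = n
  · obtain ⟨k, rfl⟩ := h
    rw [facC_pow, fac_pow, norm_mul, norm_pow, Complex.norm_intCast]
    have h1 : ‖ψ v‖ ^ k ≤ 1 := pow_le_one₀ (norm_nonneg _) (hψ v)
    have h2 := abs_nonneg (((inv (tr W v) (bb W v)).coeff k : ℤ) : ℝ)
    nlinarith
  · rw [facC_of_ne W ψ v h, norm_zero]
    exact abs_nonneg _

lemma facC_one : facC W ψ v 1 = 1 := by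
  have h := facC_pow W ψ v 0
  rw [pow_zero, pow_zero, one_mul, coeff_inv_zero] at h
  rw [h]
  simp

lemma facC_cofinite (n : ℕ) : ∀ᶠ v in cofinite, facC W ψ v n = (1 : ArithmeticFunction ℂ) n := by
  filter_upwards [(Ring.HasFiniteQuotients.finite_absNorm_heightOneSpectrum_le
    (R := 𝓞 K) n).eventually_cofinite_notMem] with v hv
  have hlt : n < nm v := not_le.mp hv
  rcases Nat.eq_zero_or_pos n with rfl | hn
  · simp
  by_cases hn1 : n = 1
  · subst hn1
    rw [facC_one, one_one]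
  · rw [one_apply_ne hn1]
    refine facC_of_ne W ψ v ?_
    rintro ⟨k, hk⟩
    rcases Nat.eq_zero_or_pos k with rfl | hk0
    · exact hn1 (by rw [← hk]; simp)
    · have h2 : nm v ≤ nm v ^ k := Nat.le_self_pow hk0.ne' _
      omega

/-- The local variable. -/
noncomputable def zp (s : ℂ) : ℂ :=
  tr W v * (ψ v * (nm v : ℂ) ^ (-s)) - bb W v * (ψ v * (nm v : ℂ) ^ (-s)) ^ 2

lemma aeval_lp (T : ℂ) : Polynomial.aeval T (lp W v) = 1 - (tr W v * T - bb W v * T ^ 2) := by
  rw [(lp_eq W v).1, quad]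
  simp
  ring

lemma hasSum_facC {ψ : HeightOneSpectrum (𝓞 K) → ℂ} (hψ : ∀ v, ‖ψ v‖ ≤ 1) {s : ℂ}
    (hs : 3 / 2 ≤ s.re) :
    LSeriesHasSum (fun n => facC W ψ v n) s (1 - zp W ψ v s)⁻¹ := by
  have hT : ‖ψ v * (nm v : ℂ) ^ (-s)‖ ≤ (nm v : ℝ) ^ (-s.re) := by
    rw [norm_mul, norm_cpow]
    have h1 := hψ v
    have h2 : 0 ≤ (nm v : ℝ) ^ (-s.re) := by positivity
    nlinarith
  have h := hasSum_inv (a := tr W v) (b := bb W v) (T := ψ v * (nm v : ℂ) ^ (-s))
    (x := xi W v s.re) (by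
      rw [xi]
      have h3 : ‖ψ v * (nm v : ℂ) ^ (-s)‖ ^ 2 ≤ ((nm v : ℝ) ^ (-s.re)) ^ 2 :=
        pow_le_pow_left₀ (norm_nonneg _) hT 2
      gcongr) (by have := xi_le W v hs; linarith)
  have hinj : Function.Injective fun k : ℕ => nm v ^ k := Nat.pow_right_injective (one_lt_nm v)
  rw [LSeriesHasSum, ← hinj.hasSum_iff]
  · have e : (term (fun n => facC W ψ v n) s) ∘ (fun k : ℕ => nm v ^ k) =
        fun k : ℕ => ((inv (tr W v) (bb W v)).coeff k : ℂ) * (ψ v * (nm v : ℂ) ^ (-s)) ^ k := by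
      ext k
      have hqk : nm v ^ k ≠ 0 := pow_ne_zero k (by have := one_lt_nm v; omega)
      rw [Function.comp_apply, term_of_ne_zero hqk, facC_pow, div_eq_mul_inv,
        Nat.cast_pow, ← Complex.cpow_neg]
      rw [← Complex.natCast_cpow_natCast_mul, Complex.cpow_nat_mul]
      ring
    rw [e]
    exact h
  · intro n hn
    rw [term_def]
    split_ifs with h0
    · rfl
    · rw [facC_of_ne W ψ v (fun ⟨k, hk⟩ => hn ⟨k, hk⟩), zero_div]

/-- Absolute convergence and the Euler product. -/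
theorem euler {ψ : HeightOneSpectrum (𝓞 K) → ℂ} (hψ : ∀ v, ‖ψ v‖ ≤ 1) {s : ℂ}
    (hs : 3 / 2 < s.re) :
    LSeriesSummable (fun n => LFun W ψ n) s ∧
      Tendsto (fun S : Finset (HeightOneSpectrum (𝓞 K)) => ∏ v ∈ S, (1 - zp W ψ v s)⁻¹) atTop
        (𝓝 (LSeries (fun n => LFun W ψ n) s)) := by
  rw [LFun_eq]
  exact eulerC (f := fac W) (F := facC W ψ) (fun v => fac_one W v) (fac_cofinite W)
    (facC_cofinite W ψ) (fun v n => norm_facC_le W v hψ n)
    (σ := s.re) (x := fun v => 25 * xi W v s.re) ((summable_xi W hs).mul_left 25)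
    (fun v => mul_nonneg (by norm_num) (xi_nonneg W v _))
    (fun v => (hasSum_fac W v (s := (s.re : ℂ)) (by simpa using hs.le)).LSeriesSummable)
    (fun v => tsum_norm_fac W v hs.le) (s := s) le_rfl (fun v => hasSum_facC W v hψ hs.le)

/-- The Euler product with the local polynomials. -/
theorem euler_hasProd {ψ : HeightOneSpectrum (𝓞 K) → ℂ} (hψ : ∀ v, ‖ψ v‖ ≤ 1) {s : ℂ}
    (hs : 3 / 2 < s.re) :
    HasProd (fun v : HeightOneSpectrum (𝓞 K) =>
      (Polynomial.aeval (ψ v * (nm v : ℂ) ^ (-s)) (lp W v))⁻¹)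
      (LSeries (fun n => LFun W ψ n) s) := by
  have h := (euler W hψ hs).2
  refine h.congr fun S => ?_
  refine Finset.prod_congr rfl fun v _ => ?_
  show (1 - zp W ψ v s)⁻¹ = (Polynomial.aeval (ψ v * (nm v : ℂ) ^ (-s)) (lp W v))⁻¹
  rw [aeval_lp, zp]

end Pool.Agent.Lib.MP_bf61d2_nt.MV59Y
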