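import Mathlib
import Pool.Agent.Lib.MP_bf61d2_nt.Trim.Local
import Pool.Agent.Lib.MP_bf61d2_nt.Trim.LocalCurve
import Pool.Agent.Lib.MP_bf61d2_nt.Trim.MV59.CV40
import Pool.Agent.Lib.MP_bf61d2_nt.Trim.MV59Y.LFunY
import Pool.Agent.Lib.MP_bf61d2_nt.Trim.Places
import Pool.Agent.Lib.MP_bf61d2_nt.Trim.Structure

set_option autoImplicit false

/-!
Mean values for all functions on the primes: the convolution identity `b log = b * Λ` (the proof of
module CV by helper40, with a function on the primes).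
-/

namespace NumberField
end NumberField

namespace Pool.Agent.Lib.MP_bf61d2_nt.MV59
end Pool.Agent.Lib.MP_bf61d2_nt.MV59

namespace Pool.Agent.Lib.MP_bf61d2_nt.MV59.CV40
end Pool.Agent.Lib.MP_bf61d2_nt.MV59.CV40

namespace Pool.Agent.Lib.MP_bf61d2_nt.MV59Y

open NumberField IsDedekindDomain ArithmeticFunction Filter Topology MV59

namespace CVY

open MV59.CV40 (HN sg gR g1 fR L2 hn_L2 summable_h fR_apply gR_pow gR_eq_zero g1_apply gR_apply)

/-! ### The derivation -/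

/-- Multiplication by the logarithm. -/
noncomputable def dl (f : ArithmeticFunction ℂ) : ArithmeticFunction ℂ :=
  ⟨fun n => f n * (Real.log n : ℂ), by simp⟩

lemma dl_apply (f : ArithmeticFunction ℂ) (n : ℕ) : dl f n = f n * (Real.log n : ℂ) := rfl

lemma dl_mul (f g : ArithmeticFunction ℂ) : dl (f * g) = dl f * g + f * dl g := by
  ext n
  rw [ArithmeticFunction.add_apply, dl_apply, mul_apply, mul_apply, mul_apply, Finset.sum_mul,
    ← Finset.sum_add_distrib]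
  refine Finset.sum_congr rfl fun x hx => ?_
  obtain ⟨h1, h2⟩ := Nat.mem_divisorsAntidiagonal.mp hx
  have hx1 : x.1 ≠ 0 := by
    rintro h
    rw [h, zero_mul] at h1
    exact h2 h1.symm
  have hx2 : x.2 ≠ 0 := by
    rintro h
    rw [h, mul_zero] at h1
    exact h2 h1.symm
  rw [dl_apply, dl_apply, ← h1, Nat.cast_mul, Real.log_mul (by exact_mod_cast hx1)
    (by exact_mod_cast hx2)]
  push_cast
  ring

lemma dl_one : dl 1 = 0 := by
  ext n
  rw [dl_apply, ArithmeticFunction.zero_apply]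
  by_cases h : n = 1
  · subst h; simp
  · rw [one_apply_ne h, zero_mul]

lemma dl_prod {ι : Type*} {f L : ι → ArithmeticFunction ℂ} (h : ∀ i, dl (f i) = f i * L i)
    (S : Finset ι) : dl (∏ i ∈ S, f i) = (∏ i ∈ S, f i) * ∑ i ∈ S, L i := by
  classical
  induction S using Finset.induction_on with
  | empty => rw [Finset.prod_empty, dl_one, Finset.sum_empty, mul_zero]
  | insert i S hi ih =>
    rw [Finset.prod_insert hi, Finset.sum_insert hi, dl_mul, ih, h]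
    ring

lemma sum_apply' {ι : Type*} (L : ι → ArithmeticFunction ℂ) (S : Finset ι) (n : ℕ) :
    (∑ i ∈ S, L i) n = ∑ i ∈ S, L i n := by
  classical
  induction S using Finset.induction_on with
  | empty => simp
  | insert i S hi ih => rw [Finset.sum_insert hi, Finset.sum_insert hi, ArithmeticFunction.add_apply, ih]

/-! ### Local factors -/

section loc

variable {K : Type*} [Field K] [NumberField K] (W : WeierstrassCurve K)
  (ψ : HeightOneSpectrum (𝓞 K) → ℂ) (v : HeightOneSpectrum (𝓞 K))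

/-- The inverse of the local factor. -/
noncomputable def dC : ArithmeticFunction ℂ :=
  ofPowerSeries (nm v) (PowerSeries.rescale (ψ v) (PowerSeries.map (Int.castRingHom ℂ)
    ((quad (tr W v) (bb W v) : Polynomial ℤ) : PowerSeries ℤ)))

lemma facC_mul_dC : facC W ψ v * dC W ψ v = 1 := by
  rw [facC, dC, ← map_mul, ← map_mul, ← map_mul, mul_comm (inv _ _), quad_mul_inv, map_one, map_one,
    map_one]

/-- The local term. -/
noncomputable def gC : ArithmeticFunction ℂ := ⟨fun n => -(dC W ψ v n * (Real.log n : ℂ)), by simp⟩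

lemma gC_apply (n : ℕ) : gC W ψ v n = -(dC W ψ v n * (Real.log n : ℂ)) := rfl

lemma dl_facC : dl (facC W ψ v) = facC W ψ v * (facC W ψ v * gC W ψ v) := by
  have h1 := dl_mul (facC W ψ v) (dC W ψ v)
  rw [facC_mul_dC, dl_one] at h1
  have h2 := facC_mul_dC W ψ v
  have h3 : gC W ψ v + dl (dC W ψ v) = 0 := by
    ext n
    rw [ArithmeticFunction.add_apply, gC_apply, dl_apply, ArithmeticFunction.zero_apply]
    ring
  calc dl (facC W ψ v) = dl (facC W ψ v) * (facC W ψ v * dC W ψ v) := by rw [h2, mul_one]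
    _ = (dl (facC W ψ v) * dC W ψ v) * facC W ψ v := by ring
    _ = (facC W ψ v * gC W ψ v) * facC W ψ v := by
        congr 1
        linear_combination -h1 - facC W ψ v * h3
    _ = _ := by ring

/-- The twist of a real local function. -/
def Tw (f : ArithmeticFunction ℝ) (F : ArithmeticFunction ℂ) : Prop :=
  (∀ k : ℕ, F (nm v ^ k) = ψ v ^ k * (f (nm v ^ k) : ℂ)) ∧
    (∀ n, (¬ ∃ k, nm v ^ k = n) → F n = 0) ∧ ∀ n, (¬ ∃ k, nm v ^ k = n) → f n = 0

variable {ψ v}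

lemma Tw.norm_le {f : ArithmeticFunction ℝ} {F : ArithmeticFunction ℂ} (h : Tw ψ v f F)
    (hψ : ‖ψ v‖ ≤ 1) (n : ℕ) : ‖F n‖ ≤ |f n| := by
  by_cases hn : ∃ k, nm v ^ k = n
  · obtain ⟨k, rfl⟩ := hn
    rw [h.1 k, norm_mul, norm_pow, Complex.norm_real, Real.norm_eq_abs]
    have h1 : ‖ψ v‖ ^ k ≤ 1 := pow_le_one₀ (norm_nonneg _) hψ
    have h2 := abs_nonneg (f (nm v ^ k))
    nlinarith
  · rw [h.2.1 n hn, norm_zero]
    exact abs_nonneg _

lemma Tw.mul {f g : ArithmeticFunction ℝ} {F G : ArithmeticFunction ℂ} (hf : Tw ψ v f F)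
    (hg : Tw ψ v g G) : Tw ψ v (f * g) (F * G) := by
  have hq := one_lt_nm v
  have hpair : ∀ {n : ℕ} {x : ℕ × ℕ}, x ∈ n.divisorsAntidiagonal → (∃ i, nm v ^ i = x.1) →
      (∃ j, nm v ^ j = x.2) → ∃ k, nm v ^ k = n := by
    rintro n x hx ⟨i, hi⟩ ⟨j, hj⟩
    exact ⟨i + j, by rw [pow_add, hi, hj]; exact (Nat.mem_divisorsAntidiagonal.mp hx).1⟩
  refine ⟨fun k => ?_, fun n hn => ?_, fun n hn => ?_⟩
  · rw [mul_apply, mul_apply]
    push_cast
    rw [Finset.mul_sum]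
    refine Finset.sum_congr rfl fun x hx => ?_
    by_cases h1 : ∃ i, nm v ^ i = x.1
    · by_cases h2 : ∃ j, nm v ^ j = x.2
      · obtain ⟨i, hi⟩ := h1
        obtain ⟨j, hj⟩ := h2
        have h3 : i + j = k := by
          have h4 := (Nat.mem_divisorsAntidiagonal.mp hx).1
          rw [← hi, ← hj, ← pow_add] at h4
          exact Nat.pow_right_injective hq h4
        rw [← hi, ← hj, hf.1, hg.1, ← h3, pow_add]
        ring
      · rw [hg.2.1 _ h2, hg.2.2 _ h2]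
        simp
    · rw [hf.2.1 _ h1, hf.2.2 _ h1]
      simp
  · rw [mul_apply]
    refine Finset.sum_eq_zero fun x hx => ?_
    by_cases h1 : ∃ i, nm v ^ i = x.1
    · by_cases h2 : ∃ j, nm v ^ j = x.2
      · exact absurd (hpair hx h1 h2) hn
      · rw [hg.2.1 _ h2, mul_zero]
    · rw [hf.2.1 _ h1, zero_mul]
  · rw [mul_apply]
    refine Finset.sum_eq_zero fun x hx => ?_
    by_cases h1 : ∃ i, nm v ^ i = x.1
    · by_cases h2 : ∃ j, nm v ^ j = x.2
      · exact absurd (hpair hx h1 h2) hn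
      · rw [hg.2.2 _ h2, mul_zero]
    · rw [hf.2.2 _ h1, zero_mul]

lemma Tw.sub {f g : ArithmeticFunction ℝ} {F G : ArithmeticFunction ℂ} (hf : Tw ψ v f F)
    (hg : Tw ψ v g G) : Tw ψ v (f - g) (F - G) := by
  have e1 : ∀ n, (f - g) n = f n - g n := MV59.CV40.sub_apply' f g
  have e2 : ∀ n, (F - G) n = F n - G n := fun n => by
    rw [sub_eq_add_neg, ArithmeticFunction.add_apply, ArithmeticFunction.neg_apply, sub_eq_add_neg]
  refine ⟨fun k => ?_, fun n hn => ?_, fun n hn => ?_⟩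
  · rw [e1, e2, hf.1, hg.1]
    push_cast
    ring
  · rw [e2, hf.2.1 n hn, hg.2.1 n hn, sub_zero]
  · rw [e1, hf.2.2 n hn, hg.2.2 n hn, sub_zero]

variable (ψ v)

lemma tw_fac : Tw ψ v (fR W v) (facC W ψ v) := by
  refine ⟨fun k => ?_, fun n hn => facC_of_ne W ψ v hn, fun n hn => ?_⟩
  · rw [facC_pow, fR_apply, fac_pow]
    push_cast
    rfl
  · rw [fR_apply, fac, ofPowerSeries_apply (one_lt_nm v), Function.extend_apply' _ _ _ hn]
    simp

lemma dC_pow (k : ℕ) : dC W ψ v (nm v ^ k) =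
    ψ v ^ k * (((quad (tr W v) (bb W v)).coeff k : ℤ) : ℂ) := by
  rw [dC, ofPowerSeries_apply_pow (one_lt_nm v), PowerSeries.coeff_rescale, PowerSeries.coeff_map,
    Polynomial.coeff_coe]
  rfl

lemma tw_g : Tw ψ v (gR W v) (gC W ψ v) := by
  refine ⟨fun k => ?_, fun n hn => ?_, fun n hn => ?_⟩
  · rw [gC_apply, dC_pow, gR_apply, MV59.CV40.dR_pow]
    push_cast
    ring
  · rw [gC_apply, dC, ofPowerSeries_apply (one_lt_nm v), Function.extend_apply' _ _ _ hn]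
    simp
  · refine gR_eq_zero W v (fun h => hn ⟨1, by rw [pow_one, h]⟩) (fun h => hn ⟨2, h.symm⟩)

/-- The part on the prime itself. -/
noncomputable def g1C : ArithmeticFunction ℂ :=
  ⟨fun n => if n = nm v then ψ v * (cc W v : ℂ) * ((Real.sqrt (nm v) * Real.log (nm v) : ℝ) : ℂ)
    else 0, by
    rw [if_neg]
    have := one_lt_nm v
    omega⟩

lemma g1C_apply (n : ℕ) : g1C W ψ v n =
    if n = nm v then ψ v * (cc W v : ℂ) * ((Real.sqrt (nm v) * Real.log (nm v) : ℝ) : ℂ)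
    else 0 := rfl

lemma tw_g1 : Tw ψ v (g1 W v) (g1C W ψ v) := by
  have hq := one_lt_nm v
  refine ⟨fun k => ?_, fun n hn => ?_, fun n hn => ?_⟩
  · rw [g1C_apply, g1_apply]
    by_cases hk : nm v ^ k = nm v
    · have hk1 : k = 1 := by
        have h := hk
        nth_rewrite 2 [← pow_one (nm v)] at h
        exact Nat.pow_right_injective hq h
      rw [if_pos hk, if_pos hk, hk1, pow_one]
      push_cast
      ring
    · rw [if_neg hk, if_neg hk]
      simp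
  · rw [g1C_apply, if_neg (fun h => hn ⟨1, by rw [pow_one, h]⟩)]
  · rw [g1_apply, if_neg (fun h => hn ⟨1, by rw [pow_one, h]⟩)]

/-- The local remainder. -/
noncomputable def L2C : ArithmeticFunction ℂ := facC W ψ v * gC W ψ v - g1C W ψ v

lemma norm_L2C_le (hψ : ‖ψ v‖ ≤ 1) (n : ℕ) : ‖L2C W ψ v n‖ ≤ |L2 W v n| :=
  (((tw_fac W ψ v).mul (tw_g W ψ v)).sub (tw_g1 W ψ v)).norm_le hψ n

end loc

/-! ### Assembly -/

section asm

variable {K : Type*} [Field K] [NumberField K] (W : WeierstrassCurve K)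
  (ψ : HeightOneSpectrum (𝓞 K) → ℂ)

/-- The prime coefficients. -/
noncomputable def cpC (n : ℕ) : ℂ := ∑' v : (nm (K := K)) ⁻¹' {n}, ψ v * (cc W v : ℂ)

lemma cpC_eq_zero {n : ℕ} (hn : ¬ n.Prime) : cpC W ψ n = 0 := by
  rw [cpC]
  have : ∀ v : (nm (K := K)) ⁻¹' {n}, ψ v * (cc W (v : HeightOneSpectrum (𝓞 K)) : ℂ) = 0 := by
    rintro ⟨v, hv⟩
    have h0 : cc W v = 0 := by
      rw [cc, if_neg]
      rintro ⟨h1, h2⟩
      have hv' : nm v = n := hv
      apply hn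
      rw [← hv', h2]
      exact pr_prime v
    simp only [h0, Complex.ofReal_zero, mul_zero]
  simp_rw [this]
  exact tsum_zero

variable {ψ}

lemma norm_cpC_le (hψ : ∀ v, ‖ψ v‖ ≤ 1) (n : ℕ) : ‖cpC W ψ n‖ ≤ 2 * rr K n := by
  classical
  have := (finite_fiber (K := K) n).to_subtype
  have := Fintype.ofFinite ((nm (K := K)) ⁻¹' {n})
  rw [cpC, tsum_fintype, rr, Nat.card_eq_fintype_card]
  calc ‖∑ v : (nm (K := K)) ⁻¹' {n}, ψ v * (cc W (v : HeightOneSpectrum (𝓞 K)) : ℂ)‖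
      ≤ ∑ v : (nm (K := K)) ⁻¹' {n}, ‖ψ v * (cc W (v : HeightOneSpectrum (𝓞 K)) : ℂ)‖ :=
        norm_sum_le _ _
    _ ≤ ∑ _v : (nm (K := K)) ⁻¹' {n}, 2 := Finset.sum_le_sum fun v _ => by
        rw [norm_mul, Complex.norm_real, Real.norm_eq_abs]
        have h1 := hψ v
        have h2 := abs_cc_le W (v : HeightOneSpectrum (𝓞 K))
        have h3 := abs_nonneg (cc W (v : HeightOneSpectrum (𝓞 K)))
        nlinarith
    _ = _ := by rw [Finset.sum_const, nsmul_eq_mul, mul_comm]; rfl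

lemma hn_L2C (hψ : ∀ v, ‖ψ v‖ ≤ 1) (v : HeightOneSpectrum (𝓞 K)) :
    Summable (fun n : ℕ => ‖L2C W ψ v n‖ * (n : ℝ) ^ (-sg)) ∧
      ∑' n : ℕ, ‖L2C W ψ v n‖ * (n : ℝ) ^ (-sg) ≤ 8000 * (pr v : ℝ) ^ (-(3 / 2) : ℝ) := by
  obtain ⟨h1, h2⟩ := hn_L2 W v
  have h3 : ∀ n : ℕ, ‖L2C W ψ v n‖ * (n : ℝ) ^ (-sg) ≤ |L2 W v n| * (n : ℝ) ^ (-sg) := fun n =>
    mul_le_mul_of_nonneg_right (norm_L2C_le W ψ v (hψ v) n) (by positivity)
  have h4 : Summable (fun n : ℕ => ‖L2C W ψ v n‖ * (n : ℝ) ^ (-sg)) :=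
    h1.of_nonneg_of_le (fun n => by positivity) h3
  exact ⟨h4, (h4.tsum_le_tsum h3 h1).trans h2⟩

lemma summable_F (hψ : ∀ v, ‖ψ v‖ ≤ 1) : Summable fun x : HeightOneSpectrum (𝓞 K) × ℕ =>
    ‖L2C W ψ x.1 x.2‖ * (x.2 : ℝ) ^ (-sg) := by
  rw [summable_prod_of_nonneg (fun x => by positivity)]
  refine ⟨fun v => (hn_L2C W hψ v).1, ?_⟩
  exact Summable.of_nonneg_of_le (fun v => tsum_nonneg fun n => by positivity)
    (fun v => (hn_L2C W hψ v).2) (summable_h K)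

variable (ψ) in
/-- The remainder. -/
noncomputable def Lam2 (k : ℕ) : ℂ := ∑' v : HeightOneSpectrum (𝓞 K), L2C W ψ v k

lemma summable_F' (hψ : ∀ v, ‖ψ v‖ ≤ 1) (k : ℕ) : Summable fun v : HeightOneSpectrum (𝓞 K) =>
    ‖L2C W ψ v k‖ * (k : ℝ) ^ (-sg) :=
  ((Equiv.prodComm _ _).summable_iff.mpr (summable_F W hψ)).prod_factor k

lemma summable_norm_L2 (hψ : ∀ v, ‖ψ v‖ ≤ 1) {k : ℕ} (hk : k ≠ 0) :
    Summable fun v => ‖L2C W ψ v k‖ := by
  have h := summable_F' W hψ k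
  have hk' : (0 : ℝ) < (k : ℝ) ^ (-sg) := Real.rpow_pos_of_pos (by positivity) _
  refine (h.mul_right ((k : ℝ) ^ (-sg))⁻¹).congr fun v => ?_
  field_simp

lemma hasSum_L2 (hψ : ∀ v, ‖ψ v‖ ≤ 1) {k : ℕ} (hk : k ≠ 0) :
    HasSum (fun v => L2C W ψ v k) (Lam2 W ψ k) :=
  (Summable.of_norm (summable_norm_L2 W hψ hk)).hasSum

lemma lam2_le (hψ : ∀ v, ‖ψ v‖ ≤ 1) (k : ℕ) : ‖Lam2 W ψ k‖ * (k : ℝ) ^ (-sg) ≤
    ∑' v : HeightOneSpectrum (𝓞 K), ‖L2C W ψ v k‖ * (k : ℝ) ^ (-sg) := by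
  rcases Nat.eq_zero_or_pos k with rfl | hk
  · have : Lam2 W ψ 0 = 0 := by
      rw [Lam2]
      simp
    rw [this, norm_zero, zero_mul]
    exact tsum_nonneg fun v => by positivity
  · rw [tsum_mul_right]
    refine mul_le_mul_of_nonneg_right ?_ (by positivity)
    exact norm_tsum_le_tsum_norm (summable_norm_L2 W hψ hk.ne')

lemma summable_lam2 (hψ : ∀ v, ‖ψ v‖ ≤ 1) :
    Summable (fun k : ℕ => ‖Lam2 W ψ k‖ * (k : ℝ) ^ (-sg)) ∧
    ∑' k : ℕ, ‖Lam2 W ψ k‖ * (k : ℝ) ^ (-sg) ≤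
      ∑' v : HeightOneSpectrum (𝓞 K), 8000 * (pr v : ℝ) ^ (-(3 / 2) : ℝ) := by
  have hF := summable_F W hψ
  have hF' := (Equiv.prodComm _ _).summable_iff.mpr hF
  have h1 : Summable fun k : ℕ => ∑' v : HeightOneSpectrum (𝓞 K),
      ‖L2C W ψ v k‖ * (k : ℝ) ^ (-sg) := hF'.prod
  have h2 : Summable (fun k : ℕ => ‖Lam2 W ψ k‖ * (k : ℝ) ^ (-sg)) :=
    Summable.of_nonneg_of_le (fun k => by positivity) (lam2_le W hψ) h1
  refine ⟨h2, (h2.tsum_le_tsum (lam2_le W hψ) h1).trans ?_⟩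
  have h3 : ∑' (k : ℕ) (v : HeightOneSpectrum (𝓞 K)), ‖L2C W ψ v k‖ * (k : ℝ) ^ (-sg) =
      ∑' (v : HeightOneSpectrum (𝓞 K)) (k : ℕ), ‖L2C W ψ v k‖ * (k : ℝ) ^ (-sg) :=
    Summable.tsum_comm (f := fun (v : HeightOneSpectrum (𝓞 K)) (k : ℕ) =>
      ‖L2C W ψ v k‖ * (k : ℝ) ^ (-sg)) hF
  rw [h3]
  exact Summable.tsum_le_tsum (fun v => (hn_L2C W hψ v).2) hF.prod (summable_h K)

/-- The sum of the terms on the primes. -/
lemma hasSum_g1 (k : ℕ) : HasSum (fun v => g1C W ψ v k)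
    (cpC W ψ k * ((Real.sqrt k * Real.log k : ℝ) : ℂ)) := by
  have hfin := finite_fiber (K := K) k
  have := hfin.to_subtype
  have h1 : HasSum (fun v : (nm (K := K)) ⁻¹' {k} => ψ v * (cc W v : ℂ)) (cpC W ψ k) := by
    rw [cpC]
    exact (Summable.of_finite (f := fun v : (nm (K := K)) ⁻¹' {k} => ψ v * (cc W v : ℂ))).hasSum
  have h2 := h1.mul_right ((Real.sqrt k * Real.log k : ℝ) : ℂ)
  have h3 : HasSum ((fun v => ψ v * (cc W v : ℂ) * ((Real.sqrt k * Real.log k : ℝ) : ℂ)) ∘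
      ((↑) : (nm (K := K)) ⁻¹' {k} → HeightOneSpectrum (𝓞 K)))
      (cpC W ψ k * ((Real.sqrt k * Real.log k : ℝ) : ℂ)) := h2
  rw [hasSum_subtype_iff_indicator] at h3
  convert h3 using 1
  ext v
  rw [g1C_apply]
  by_cases h : k = nm v
  · rw [if_pos h, Set.indicator_of_mem (show v ∈ (nm (K := K)) ⁻¹' {k} from h.symm), h]
  · rw [if_neg h, Set.indicator_of_notMem
      (fun h' : v ∈ (nm (K := K)) ⁻¹' {k} => h (Eq.symm h'))]

lemma hasSum_L (hψ : ∀ v, ‖ψ v‖ ≤ 1) {k : ℕ} (hk : k ≠ 0) :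
    HasSum (fun v => (facC W ψ v * gC W ψ v) k)
    (cpC W ψ k * ((Real.sqrt k * Real.log k : ℝ) : ℂ) + Lam2 W ψ k) := by
  have h := (hasSum_g1 (ψ := ψ) W k).add (hasSum_L2 W hψ hk)
  have e : (fun v => g1C W ψ v k + L2C W ψ v k) = fun v => (facC W ψ v * gC W ψ v) k := by
    ext v
    rw [L2C, sub_eq_add_neg, ArithmeticFunction.add_apply, ArithmeticFunction.neg_apply]
    ring
  rwa [e] at h

theorem identity (hψ : ∀ v, ‖ψ v‖ ≤ 1) {n : ℕ} : LFun W ψ n * (Real.log n : ℂ) =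
    ∑ p ∈ n.divisorsAntidiagonal, LFun W ψ p.1 *
      (cpC W ψ p.2 * ((Real.sqrt p.2 * Real.log p.2 : ℝ) : ℂ) + Lam2 W ψ p.2) := by
  have hconv : ∀ m : ℕ, Tendsto (fun S : Finset (HeightOneSpectrum (𝓞 K)) =>
      (∏ v ∈ S, facC W ψ v) m) atTop (𝓝 (LFun W ψ m)) := by
    intro m
    refine tendsto_const_nhds.congr' ?_
    filter_upwards [tendsTo_eulerProduct_of_tendsTo (facC W ψ) (facC_cofinite W ψ) m] with S hS
    rw [hS, LFun_eq]
  have h1 : Tendsto (fun S : Finset (HeightOneSpectrum (𝓞 K)) =>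
      (∏ v ∈ S, facC W ψ v) n * (Real.log n : ℂ)) atTop (𝓝 (LFun W ψ n * (Real.log n : ℂ))) :=
    (hconv n).mul_const _
  have h2 : Tendsto (fun S : Finset (HeightOneSpectrum (𝓞 K)) =>
      ∑ p ∈ n.divisorsAntidiagonal, (∏ v ∈ S, facC W ψ v) p.1 *
        ∑ v ∈ S, (facC W ψ v * gC W ψ v) p.2) atTop
      (𝓝 (∑ p ∈ n.divisorsAntidiagonal, LFun W ψ p.1 *
        (cpC W ψ p.2 * ((Real.sqrt p.2 * Real.log p.2 : ℝ) : ℂ) + Lam2 W ψ p.2))) := by
    refine tendsto_finsetSum _ fun p hp => (hconv p.1).mul ?_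
    refine hasSum_L W hψ ?_
    obtain ⟨h3, h4⟩ := Nat.mem_divisorsAntidiagonal.mp hp
    rintro h
    rw [h, mul_zero] at h3
    exact h4 h3.symm
  refine tendsto_nhds_unique h1 (h2.congr fun S => ?_)
  have h3 := dl_prod (f := facC W ψ) (L := fun v => facC W ψ v * gC W ψ v) (dl_facC W ψ) S
  have h4 := congrArg (fun f : ArithmeticFunction ℂ => f n) h3
  simp only [dl_apply, mul_apply, sum_apply'] at h4 ⊢
  exact h4.symm

end asm

end CVY

end Pool.Agent.Lib.MP_bf61d2_nt.MV59Y
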