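import Mathlib
import Pool.Agent.Lib.MP_bf61d2_nt.Trim.Artin.R.DefsR
import Pool.Agent.Lib.MP_bf61d2_nt.Trim.Local
import Pool.Agent.Lib.MP_bf61d2_nt.Trim.LocalCurve
import Pool.Agent.Lib.MP_bf61d2_nt.Trim.MV59Y.LFunY
import Pool.Agent.Lib.MP_bf61d2_nt.Trim.Places

set_option autoImplicit false

/-!
The coefficients of the twisted L-function: twist by `N ^ (-iτ)`, Euler product, pointwise bound of
the mean values for all functions on the primes.
-/

namespace NumberField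
end NumberField

namespace Pool.Agent.Lib.MP_bf61d2_nt.MV59
end Pool.Agent.Lib.MP_bf61d2_nt.MV59

namespace Pool.Agent.Lib.MP_bf61d2_nt.MV59Y

open Filter Topology NumberField IsDedekindDomain ArithmeticFunction MV59

variable {K : Type*} [Field K] [NumberField K]

/-- Twist of an arithmetic function by `n ^ (-iτ)`. -/
noncomputable def twA (τ : ℝ) (f : ArithmeticFunction ℂ) : ArithmeticFunction ℂ :=
  ⟨fun n => f n * (n : ℂ) ^ (-(τ : ℂ) * Complex.I), by simp⟩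

lemma twA_apply (τ : ℝ) (f : ArithmeticFunction ℂ) (n : ℕ) :
    twA τ f n = f n * (n : ℂ) ^ (-(τ : ℂ) * Complex.I) := rfl

lemma twA_one (τ : ℝ) : twA τ 1 = 1 := by
  ext n
  rw [twA_apply]
  by_cases h : n = 1
  · subst h; simp
  · rw [one_apply_ne h, zero_mul]

lemma twA_mul (τ : ℝ) (f g : ArithmeticFunction ℂ) : twA τ (f * g) = twA τ f * twA τ g := by
  ext n
  rw [twA_apply, mul_apply, mul_apply, Finset.sum_mul]
  refine Finset.sum_congr rfl fun p hp => ?_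
  rw [twA_apply, twA_apply, ← (Nat.mem_divisorsAntidiagonal.mp hp).1, Nat.cast_mul,
    Complex.natCast_mul_natCast_cpow]
  ring

lemma twA_prod {ι : Type*} (τ : ℝ) (f : ι → ArithmeticFunction ℂ) (S : Finset ι) :
    twA τ (∏ v ∈ S, f v) = ∏ v ∈ S, twA τ (f v) := by
  classical
  induction S using Finset.induction_on with
  | empty => rw [Finset.prod_empty, Finset.prod_empty, twA_one]
  | insert a s ha ih => rw [Finset.prod_insert ha, Finset.prod_insert ha, twA_mul, ih]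

/-- The function `ψ(v) N(v) ^ (-iτ)`. -/
noncomputable def sh (τ : ℝ) (ψ : HeightOneSpectrum (𝓞 K) → ℂ) :
    HeightOneSpectrum (𝓞 K) → ℂ :=
  fun v => ψ v * (nm v : ℂ) ^ (-(τ : ℂ) * Complex.I)

lemma norm_sh (τ : ℝ) (ψ : HeightOneSpectrum (𝓞 K) → ℂ) (v : HeightOneSpectrum (𝓞 K)) :
    ‖sh τ ψ v‖ = ‖ψ v‖ := by
  rw [sh, norm_mul, Complex.norm_natCast_cpow_of_pos (by have := one_lt_nm v; omega)]
  simp

lemma facC_sh (W : WeierstrassCurve K) (ψ : HeightOneSpectrum (𝓞 K) → ℂ) (τ : ℝ)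
    (v : HeightOneSpectrum (𝓞 K)) : facC W (sh τ ψ) v = twA τ (facC W ψ v) := by
  ext n
  rw [twA_apply]
  by_cases h : ∃ k, nm v ^ k = n
  · obtain ⟨k, rfl⟩ := h
    rw [facC_pow, facC_pow, sh, mul_pow, Nat.cast_pow, ← Complex.natCast_cpow_natCast_mul,
      Complex.cpow_nat_mul]
    ring
  · rw [facC_of_ne W _ v h, facC_of_ne W _ v h, zero_mul]

/-- The coefficients of the twist by `N ^ (-iτ)`. -/
theorem LFun_sh (W : WeierstrassCurve K) (ψ : HeightOneSpectrum (𝓞 K) → ℂ) (τ : ℝ) (n : ℕ) :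
    LFun W (sh τ ψ) n = LFun W ψ n * (n : ℂ) ^ (-(τ : ℂ) * Complex.I) := by
  have h1 := tendsTo_eulerProduct_of_tendsTo (facC W ψ) (facC_cofinite W ψ) n
  have h2 := tendsTo_eulerProduct_of_tendsTo (facC W (sh τ ψ)) (facC_cofinite W (sh τ ψ)) n
  obtain ⟨S, hS1, hS2⟩ := (h1.and h2).exists
  rw [LFun_eq, LFun_eq, ← hS1, ← hS2, ← twA_apply, twA_prod]
  simp_rw [facC_sh]

/-- The Euler product. -/
theorem LSeries_eq_LE (W : WeierstrassCurve K) {ψ : HeightOneSpectrum (𝓞 K) → ℂ}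
    (hψ : ∀ v, ‖ψ v‖ ≤ 1) {s : ℂ} (hs : 3 / 2 < s.re) :
    LSeries (fun n => LFun W ψ n) s = Artin.Ray.LE W ψ s :=
  ((euler_hasProd W hψ hs).tprod_eq).symm

lemma LE_sh (W : WeierstrassCurve K) (ψ : HeightOneSpectrum (𝓞 K) → ℂ) (τ : ℝ) (s : ℂ) :
    Artin.Ray.LE W (sh τ ψ) s = Artin.Ray.LE W ψ (s + τ * Complex.I) := by
  rw [Artin.Ray.LE, Artin.Ray.LE]
  refine tprod_congr fun v => ?_
  have h0 : (nm v : ℂ) ≠ 0 := by
    have := one_lt_nm v
    exact_mod_cast (show nm v ≠ 0 by omega)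
  rw [sh, mul_assoc, ← Complex.cpow_add _ _ h0]
  congr 5
  ring

end Pool.Agent.Lib.MP_bf61d2_nt.MV59Y
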