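import Mathlib
import Pool.Agent.Lib.MP_bf61d2_nt.Trim.Structure

set_option autoImplicit false

/-!
Mean values for all functions on the primes: the trivial bounds, the logarithmic derivative.
-/

namespace NumberField
end NumberField

namespace Pool.Agent.Lib.MP_bf61d2_nt.Hardy
end Pool.Agent.Lib.MP_bf61d2_nt.Hardy

namespace Pool.Agent.Lib.MP_bf61d2_nt.MV59
end Pool.Agent.Lib.MP_bf61d2_nt.MV59

namespace Pool.Agent.Lib.MP_bf61d2_nt.MV59Y

open MeasureTheory Set Filter Topology NumberField IsDedekindDomain Hardy MV59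

section

variable {K : Type*} [Field K] [NumberField K] {θ C₀ : ℝ} {b c : ℕ → ℂ}

lemma cle' (hc : ∀ n, ‖c n‖ ≤ 2 * rr K n) (hz : ∀ n, ¬ n.Prime → c n = 0) (n : ℕ) :
    ‖c n‖ ≤ 2 * Module.finrank ℚ K := by
  by_cases hn : n.Prime
  · refine (hc n).trans ?_
    have : (rr K n : ℝ) ≤ Module.finrank ℚ K := by exact_mod_cast rr_le (K := K) hn
    linarith
  · rw [hz n hn, norm_zero]
    positivity

end

end Pool.Agent.Lib.MP_bf61d2_nt.MV59Y
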